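import Pool.Agent.Q98.AXI.SobW

/-! Project AXW of helper67, job AXW-2: the weighted elliptic identities. -/

set_option autoImplicit false

open MeasureTheory Set Metric Filter Topology
open scoped ContDiff
open H459R3.NS Pool.Agent.W268.NS Pool.Agent.Q67.VD

namespace Pool.Agent.Q98.AXI

open Pool.Agent.Q85.CC Pool.Agent.Q85.CL Pool.Agent.TH305.AX Pool.Agent.Q67.AXI

lemma ae_ne_coord (i : Fin 3) : ∀ᵐ x : V, x i ≠ 0 := by
  have h : (volume : Measure V) {x : V | x i = 0} = 0 := by
    have := Measure.pi_hyperplane (fun _ : Fin 3 => (volume : Measure ℝ)) i 0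
    exact this
  rw [ae_iff]
  simpa using h

lemma ae_sg_pos : ∀ᵐ x : V, 0 < sg x := by
  filter_upwards [ae_ne_coord 0] with x hx
  unfold sg
  positivity

/-- local integrability of the weight -/
lemma sg_int {β : ℝ} (hβ : -1 < β) (R : ℝ) :
    IntegrableOn (fun x : V => sg x ^ β) (closedBall 0 R) := by
  rcases le_or_gt 0 β with hb | hb
  · exact ((sg_cont.rpow_const fun x => Or.inr hb).continuousOn).integrableOn_compact
      (isCompact_closedBall _ _)
  · set f : Fin 3 → ℝ → ℝ := ![(Icc (-R) R).indicator fun t => |t| ^ β,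
      (Icc (-R) R).indicator fun t => |t| ^ β, (Icc (-R) R).indicator fun _ => 1] with hf
    have h1 : Integrable ((Icc (-R) R).indicator fun t : ℝ => |t| ^ β) := by
      rw [integrable_indicator_iff measurableSet_Icc]
      rcases le_or_gt (-R) R with h | h
      · rw [integrableOn_Icc_iff_integrableOn_Ioc]
        exact (intervalIntegrable_iff_integrableOn_Ioc_of_le h).1 (abs_rpow_int hβ R)
      · rw [Icc_eq_empty (not_le.2 h)]
        exact integrableOn_empty
    have h2 : Integrable ((Icc (-R) R).indicator fun _ : ℝ => (1 : ℝ)) := by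
      rw [integrable_indicator_iff measurableSet_Icc]
      exact integrableOn_const (by simp)
    have h3 : Integrable (fun x : V => ∏ i, f i (x i)) := by
      refine Integrable.fintype_prod (f := f) fun i => ?_
      fin_cases i
      · exact h1
      · exact h1
      · exact h2
    rw [← integrable_indicator_iff measurableSet_closedBall]
    refine h3.mono' ?_ ?_
    · refine (Measurable.indicator ?_ measurableSet_closedBall).aestronglyMeasurable
      exact sg_cont.measurable.pow_const _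
    · filter_upwards [ae_ne_coord 0, ae_ne_coord 1] with x h0 h1
      by_cases hx : x ∈ closedBall (0 : V) R
      · rw [indicator_of_mem hx]
        rw [mem_closedBall, dist_zero_right] at hx
        have hi : ∀ i, x i ∈ Icc (-R) R := by
          intro i
          have := (norm_le_pi_norm x i).trans hx
          rw [Real.norm_eq_abs, abs_le] at this
          exact this
        have e : ∏ i, f i (x i) = |x 0| ^ β * |x 1| ^ β * 1 := by
          rw [Fin.prod_univ_three]
          simp only [hf, Matrix.cons_val_zero, Matrix.cons_val_one, Matrix.cons_val]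
          rw [indicator_of_mem (hi 0), indicator_of_mem (hi 1), indicator_of_mem (hi 2)]
        rw [e, mul_one, ← Real.mul_rpow (abs_nonneg _) (abs_nonneg _), Real.norm_eq_abs,
          abs_of_nonneg (Real.rpow_nonneg (sg_nn x) _)]
        refine Real.rpow_le_rpow_of_nonpos (mul_pos (abs_pos.2 h0) (abs_pos.2 h1)) ?_ hb.le
        unfold sg
        nlinarith [sq_nonneg (|x 0| - |x 1|), sq_abs (x 0), sq_abs (x 1), abs_nonneg (x 0),
          abs_nonneg (x 1), mul_nonneg (abs_nonneg (x 0)) (abs_nonneg (x 1))]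
      · rw [indicator_of_notMem hx, norm_zero]
        refine Finset.prod_nonneg fun i _ => ?_
        fin_cases i
        · exact indicator_nonneg (fun t _ => Real.rpow_nonneg (abs_nonneg t) _) _
        · exact indicator_nonneg (fun t _ => Real.rpow_nonneg (abs_nonneg t) _) _
        · exact indicator_nonneg (fun t _ => zero_le_one) _

lemma J_int {β : ℝ} (hβ : -1 < β) {H : V → ℝ} (hc : Continuous H) (hcs : HasCompactSupport H) :
    Integrable (fun x => sg x ^ β * H x) := by
  obtain ⟨R, hR⟩ := hcs.isCompact.isBounded.subset_closedBall (0 : V)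
  obtain ⟨M, hM⟩ := hc.bounded_above_of_compact_support hcs
  have h1 : Integrable ((closedBall (0 : V) R).indicator fun x : V => sg x ^ β) := by
    rw [integrable_indicator_iff measurableSet_closedBall]
    exact sg_int hβ R
  have h2 := h1.mul_bdd (c := M) (hc.aestronglyMeasurable) (Filter.Eventually.of_forall hM)
  refine h2.congr (Filter.Eventually.of_forall fun x => ?_)
  show (closedBall (0 : V) R).indicator (fun x : V => sg x ^ β) x * H x = sg x ^ β * H x
  by_cases hx : x ∈ closedBall (0 : V) R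
  · rw [indicator_of_mem hx]
  · have : H x = 0 := by
      by_contra hne
      exact hx (hR (subset_tsupport _ hne))
    rw [this, mul_zero, mul_zero]

/-- the weighted integral -/
noncomputable def J (β : ℝ) (H : V → ℝ) : ℝ := ∫ x, sg x ^ β * H x

/-- a sequence of small numbers -/
noncomputable def ep (n : ℕ) : ℝ := 1 / ((n : ℝ) + 1)

lemma ep_pos (n : ℕ) : 0 < ep n := Nat.one_div_pos_of_nat

lemma ep_le (n : ℕ) : ep n ≤ 1 := by
  unfold ep
  rw [div_le_one (by positivity)]
  have : (0 : ℝ) ≤ n := Nat.cast_nonneg n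
  linarith

lemma ep_lim : Tendsto ep atTop (𝓝 0) := tendsto_one_div_add_atTop_nhds_zero_nat

lemma reg_lim {β : ℝ} (hβ : -1 < β) {H : V → ℝ} (hc : Continuous H) (hcs : HasCompactSupport H)
    (k : ℕ → V → ℝ) (hk : ∀ n, Continuous (k n)) (hkb : ∀ n x, |k n x| ≤ 1)
    (hl : ∀ x, 0 < sg x → Tendsto (fun n => k n x) atTop (𝓝 1)) :
    Tendsto (fun n => ∫ x, (sg x + ep n) ^ β * k n x * H x) atTop (𝓝 (J β H)) := by
  unfold J
  have b1 := (J_int hβ hc.abs hcs.abs)
  have hne : ∀ (e : ℝ) (x : V), 0 < e → sg x + e ≠ 0 := fun e x he => by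
    have := sg_nn x
    positivity
  have c2 : Continuous fun x : V => (sg x + 1) ^ β :=
    (sg_cont.add continuous_const).rpow_const fun x => Or.inl (hne 1 x one_pos)
  have b2 : Integrable (fun x => (sg x + 1) ^ β * |H x|) :=
    (c2.mul hc.abs).integrable_of_hasCompactSupport hcs.abs.mul_left
  refine tendsto_integral_of_dominated_convergence
    (fun x => sg x ^ β * |H x| + (sg x + 1) ^ β * |H x|) ?_ (b1.add b2) ?_ ?_
  · intro n
    have c3 : Continuous fun x : V => (sg x + ep n) ^ β :=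
      (sg_cont.add continuous_const).rpow_const fun x => Or.inl (hne _ x (ep_pos n))
    exact ((c3.mul (hk n)).mul hc).aestronglyMeasurable
  · intro n
    filter_upwards [ae_sg_pos] with x hx
    have h0 : 0 < sg x + ep n := by have := ep_pos n; positivity
    have h1 : (sg x + ep n) ^ β ≤ sg x ^ β + (sg x + 1) ^ β := by
      rcases le_or_gt 0 β with hb | hb
      · have : (sg x + ep n) ^ β ≤ (sg x + 1) ^ β :=
          Real.rpow_le_rpow h0.le (by have := ep_le n; linarith) hb
        have := Real.rpow_nonneg (sg_nn x) β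
        linarith
      · have : (sg x + ep n) ^ β ≤ sg x ^ β :=
          Real.rpow_le_rpow_of_nonpos hx (by have := ep_pos n; linarith) hb.le
        have : 0 ≤ (sg x + 1) ^ β := Real.rpow_nonneg (by linarith) _
        linarith
    rw [norm_mul, norm_mul, Real.norm_eq_abs, Real.norm_eq_abs, Real.norm_eq_abs,
      abs_of_nonneg (Real.rpow_nonneg h0.le β)]
    calc (sg x + ep n) ^ β * |k n x| * |H x| ≤ (sg x + ep n) ^ β * 1 * |H x| := by
          gcongr
          exact hkb n x
      _ ≤ (sg x ^ β + (sg x + 1) ^ β) * 1 * |H x| := by gcongr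
      _ = _ := by ring
  · filter_upwards [ae_sg_pos] with x hx
    have h1 : Tendsto (fun n => (sg x + ep n) ^ β) atTop (𝓝 (sg x ^ β)) := by
      have h2 : Tendsto (fun n => sg x + ep n) atTop (𝓝 (sg x)) := by
        simpa using ep_lim.const_add (sg x)
      exact h2.rpow_const (Or.inl hx.ne')
    simpa using (h1.mul (hl x hx)).mul_const (H x)

lemma sg_sm : ContDiff ℝ ∞ sg := by
  unfold sg
  fun_prop

lemma pd_sg (j : Fin 3) (x : V) : pd j sg x = if j = 2 then 0 else 2 * x j := by
  have h1 : sg = fun y : V => (fun y : V => y 0 * y 0) y + (fun y : V => y 1 * y 1) y := by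
    funext y
    simp only [sg]
    ring
  have e : ∀ i : Fin 3, ContDiff ℝ ∞ (fun y : V => y i * y i) := fun i => by fun_prop
  have h2 : pd j sg x = pd j (fun y : V => y 0 * y 0) x + pd j (fun y : V => y 1 * y 1) x := by
    rw [h1]
    unfold pd
    rw [fderiv_fun_add ((e 0).differentiable (by simp) x) ((e 1).differentiable (by simp) x)]
    rfl
  rw [h2, pd_mulf (sm_crd 0) (sm_crd 0), pd_mulf (sm_crd 1) (sm_crd 1), pd_crd, pd_crd]
  fin_cases j <;> simp <;> ring

/-- the regularised weight -/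
noncomputable def wr (β e : ℝ) (x : V) : ℝ := (sg x + e) ^ β

lemma wr_sm (β : ℝ) {e : ℝ} (he : 0 < e) : ContDiff ℝ ∞ (wr β e) := by
  unfold wr
  refine ContDiff.rpow_const_of_ne (sg_sm.add contDiff_const) fun x => ?_
  have := sg_nn x
  positivity

lemma pd_wr (β : ℝ) {e : ℝ} (he : 0 < e) (j : Fin 3) (x : V) :
    pd j (wr β e) x = β * (sg x + e) ^ (β - 1) * pd j sg x := by
  have h0 : sg x + e ≠ 0 := by have := sg_nn x; positivity
  have h1 : HasFDerivAt (fun y => sg y + e) (fderiv ℝ sg x) x :=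
    ((sg_sm.differentiable (by simp) x).hasFDerivAt).add_const e
  have h2 := h1.rpow_const (p := β) (Or.inl h0)
  unfold pd wr
  rw [h2.fderiv]
  simp [mul_assoc]

lemma ibp {F g : V → ℝ} (hF : ContDiff ℝ ∞ F) (hc : HasCompactSupport F)
    (hg : ContDiff ℝ ∞ g) (j : Fin 3) :
    ∫ x, g x * pd j F x = -∫ x, pd j g x * F x := by
  unfold pd
  have c1 : Continuous (fun x => fderiv ℝ F x (Pi.single j 1)) := (sm_pd hF j).continuous
  have c2 : Continuous (fun x => fderiv ℝ g x (Pi.single j 1)) := (sm_pd hg j).continuous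
  refine integral_mul_fderiv_eq_neg_fderiv_mul_of_integrable ?_ ?_ ?_ ?_ ?_
  · exact (c2.mul hF.continuous).integrable_of_hasCompactSupport hc.mul_left
  · refine (hg.continuous.mul c1).integrable_of_hasCompactSupport ?_
    exact HasCompactSupport.mul_left (hc.fderiv_apply (𝕜 := ℝ) _)
  · exact (hg.continuous.mul hF.continuous).integrable_of_hasCompactSupport hc.mul_left
  · exact fun x _ => hg.differentiable (by simp) x
  · exact fun x _ => hF.differentiable (by simp) x

/-- smooth functions with compact support -/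
structure SC (f : V → ℝ) : Prop where
  sm : ContDiff ℝ ∞ f
  cs : HasCompactSupport f

lemma SC.pd {f : V → ℝ} (h : SC f) (j : Fin 3) : SC (pd j f) := ⟨sm_pd h.sm j, cs_pd h.cs j⟩

lemma SC.ml {f g : V → ℝ} (h : SC f) (hg : ContDiff ℝ ∞ g) : SC (fun x => g x * f x) :=
  ⟨hg.mul h.sm, h.cs.mul_left⟩

lemma SC.mul {f g : V → ℝ} (h : SC f) (hg : SC g) : SC (fun x => f x * g x) :=
  ⟨h.sm.mul hg.sm, hg.cs.mul_left⟩

lemma SC.add {f g : V → ℝ} (h : SC f) (hg : SC g) : SC (fun x => f x + g x) :=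
  ⟨h.sm.add hg.sm, h.cs.add hg.cs⟩

lemma SC.cm {f : V → ℝ} (h : SC f) (c : ℝ) : SC (fun x => c * f x) :=
  ⟨contDiff_const.mul h.sm, h.cs.mul_left⟩

lemma SC.RR {f : V → ℝ} (h : SC f) : SC (RR f) :=
  ((h.pd 0).ml (sm_crd 0)).add ((h.pd 1).ml (sm_crd 1))

lemma SC.int {f : V → ℝ} (h : SC f) {β : ℝ} (hβ : -1 < β) :
    Integrable (fun x => sg x ^ β * f x) := J_int hβ h.sm.continuous h.cs

/-- integration by parts, radial -/
lemma J_RR {β : ℝ} (hβ : -1 < β) {G : V → ℝ} (hG : SC G) :
    J β (RR G) = -(2 * (β + 1)) * J β G := by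
  have e1 : ∀ n, ∫ x, (sg x + ep n) ^ β * 1 * RR G x
      = -(2 * ∫ x, (sg x + ep n) ^ β * 1 * G x)
        - 2 * β * ∫ x, (sg x + ep n) ^ β * (sg x / (sg x + ep n)) * G x := by
    intro n
    have he := ep_pos n
    have hW := wr_sm β he
    have h1 : ∀ i : Fin 3, ∫ x, (x i * wr β (ep n) x) * pd i G x
        = -∫ x, (x i * pd i (wr β (ep n)) x + wr β (ep n) x) * G x := by
      intro i
      rw [ibp hG.sm hG.cs ((sm_crd i).mul hW) i]
      congr 1
      refine integral_congr_ae (Filter.Eventually.of_forall fun x => ?_)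
      show pd i (fun y => y i * wr β (ep n) y) x * G x = _
      rw [pd_mulf (sm_crd i) hW, pd_crd]
      simp
    have hi : ∀ {f : V → ℝ}, ContDiff ℝ ∞ f → Integrable (fun x => f x * G x) := by
      intro f hf
      exact (hf.mul hG.sm).continuous.integrable_of_hasCompactSupport hG.cs.mul_left
    have hi2 : ∀ {f : V → ℝ} (i : Fin 3), ContDiff ℝ ∞ f →
        Integrable (fun x => f x * pd i G x) := by
      intro f i hf
      exact (hf.mul (hG.pd i).sm).continuous.integrable_of_hasCompactSupport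
        (hG.pd i).cs.mul_left
    have c1 : ∀ i : Fin 3, ContDiff ℝ ∞ (fun x : V => x i * pd i (wr β (ep n)) x
        + wr β (ep n) x) := fun i => ((sm_crd i).mul (sm_pd hW i)).add hW
    have e2 : ∫ x, (sg x + ep n) ^ β * 1 * RR G x
        = (∫ x, (x 0 * wr β (ep n) x) * pd 0 G x) + ∫ x, (x 1 * wr β (ep n) x) * pd 1 G x := by
      rw [← integral_add (hi2 0 ((sm_crd 0).mul hW)) (hi2 1 ((sm_crd 1).mul hW))]
      refine integral_congr_ae (Filter.Eventually.of_forall fun x => ?_)
      simp only [wr, RR]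
      ring
    rw [e2, h1 0, h1 1]
    have e3 : ∫ x, (sg x + ep n) ^ β * 1 * G x = ∫ x, wr β (ep n) x * G x := by
      simp only [wr, mul_one]
    have e4 : ∫ x, (sg x + ep n) ^ β * (sg x / (sg x + ep n)) * G x
        = ∫ x, (wr β (ep n) x * (sg x / (sg x + ep n))) * G x := rfl
    have c5 : ContDiff ℝ ∞ (fun x : V => sg x / (sg x + ep n)) :=
      sg_sm.div (sg_sm.add contDiff_const) fun x => by have := sg_nn x; positivity
    rw [e3, e4]
    have i3 := hi hW
    have i4 := hi (hW.mul c5)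
    have i5 := hi (c1 0)
    have i6 := hi (c1 1)
    have e6 : (∫ x, (x 0 * pd 0 (wr β (ep n)) x + wr β (ep n) x) * G x)
        + (∫ x, (x 1 * pd 1 (wr β (ep n)) x + wr β (ep n) x) * G x)
        = 2 * (∫ x, wr β (ep n) x * G x)
          + 2 * β * ∫ x, (wr β (ep n) x * (sg x / (sg x + ep n))) * G x := by
      rw [← integral_add i5 i6, ← integral_const_mul, ← integral_const_mul,
        ← integral_add (i3.const_mul _) (i4.const_mul _)]
      refine integral_congr_ae (Filter.Eventually.of_forall fun x => ?_)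
      show (x 0 * pd 0 (wr β (ep n)) x + wr β (ep n) x) * G x
        + (x 1 * pd 1 (wr β (ep n)) x + wr β (ep n) x) * G x
        = 2 * (wr β (ep n) x * G x) + 2 * β * (wr β (ep n) x * (sg x / (sg x + ep n)) * G x)
      rw [pd_wr β he, pd_wr β he, pd_sg, pd_sg]
      have hp : 0 < sg x + ep n := by have := sg_nn x; positivity
      have e7 : (sg x + ep n) ^ (β - 1) = wr β (ep n) x / (sg x + ep n) := by
        unfold wr
        rw [Real.rpow_sub_one hp.ne']
      have e8 : x 0 ^ 2 + x 1 ^ 2 = sg x := rfl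
      simp only [Fin.reduceEq, if_false, e7]
      rw [← e8] at *
      field_simp
      ring
    linarith
  have hk1 : ∀ n : ℕ, Continuous fun _ : V => (1 : ℝ) := fun _ => continuous_const
  have hR := hG.RR
  have l1 := reg_lim hβ hR.sm.continuous hR.cs (fun _ _ => (1 : ℝ)) hk1 (by simp)
    (fun x _ => tendsto_const_nhds)
  have l2 := reg_lim hβ hG.sm.continuous hG.cs (fun _ _ => (1 : ℝ)) hk1 (by simp)
    (fun x _ => tendsto_const_nhds)
  have l3 := reg_lim hβ hG.sm.continuous hG.cs (fun n x => sg x / (sg x + ep n))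
    (fun n => sg_cont.div (sg_cont.add continuous_const) fun x => by
      have := sg_nn x; have := ep_pos n; positivity)
    (fun n x => by
      have h1 := sg_nn x
      have h2 := ep_pos n
      rw [abs_of_nonneg (by positivity), div_le_one (by positivity)]
      linarith)
    (fun x hx => by
      have h2 : Tendsto (fun n => sg x + ep n) atTop (𝓝 (sg x)) := by
        simpa using ep_lim.const_add (sg x)
      have h3 : Tendsto (fun n => sg x / (sg x + ep n)) atTop (𝓝 (sg x / sg x)) :=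
        tendsto_const_nhds.div h2 hx.ne'
      rwa [div_self hx.ne'] at h3)
  have l4 := (l2.const_mul 2).neg.sub (l3.const_mul (2 * β))
  have l5 := tendsto_nhds_unique l1 (l4.congr fun n => (e1 n).symm)
  rw [l5]
  ring

lemma J_pd2 {β : ℝ} (hβ : -1 < β) {G : V → ℝ} (hG : SC G) : J β (pd 2 G) = 0 := by
  have e1 : ∀ n, ∫ x, (sg x + ep n) ^ β * 1 * pd 2 G x = 0 := by
    intro n
    have he := ep_pos n
    have hW := wr_sm β he
    have h1 := ibp hG.sm hG.cs hW 2
    have h2 : ∀ x, pd 2 (wr β (ep n)) x = 0 := by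
      intro x
      rw [pd_wr β he, pd_sg]
      simp
    simp only [h2, zero_mul, integral_zero, neg_zero] at h1
    simpa [wr] using h1
  have l1 := reg_lim hβ (hG.pd 2).sm.continuous (hG.pd 2).cs (fun _ _ => (1 : ℝ))
    (fun _ => continuous_const) (by simp) (fun x _ => tendsto_const_nhds)
  exact tendsto_nhds_unique l1 (tendsto_const_nhds.congr fun n => (e1 n).symm)

lemma J_add {β : ℝ} (hβ : -1 < β) {f g : V → ℝ} (hf : SC f) (hg : SC g) :
    J β (fun x => f x + g x) = J β f + J β g := by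
  unfold J
  rw [← integral_add (hf.int hβ) (hg.int hβ)]
  simp only [mul_add]

lemma J_cm (β c : ℝ) (f : V → ℝ) : J β (fun x => c * f x) = c * J β f := by
  unfold J
  rw [← integral_const_mul]
  congr 1
  funext x
  ring

lemma J_sg {γ : ℝ} (hγ : 0 < γ) (f : V → ℝ) : J (γ - 1) (fun x => sg x * f x) = J γ f := by
  unfold J
  congr 1
  funext x
  rcases eq_or_lt_of_le (sg_nn x) with h | h
  · show sg x ^ (γ - 1) * (sg x * f x) = sg x ^ γ * f x
    rw [← h, Real.zero_rpow hγ.ne']
    simp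
  · rw [Real.rpow_sub_one h.ne']
    field_simp

lemma pd_comm2 {f : V → ℝ} (hf : ContDiff ℝ ∞ f) (i j : Fin 3) : pd i (pd j f) = pd j (pd i f) := by
  funext x
  have hd : ∀ y, HasFDerivAt (fderiv ℝ f) (fderiv ℝ (fderiv ℝ f) y) y := by
    intro y
    have h1 : ContDiff ℝ ∞ (fderiv ℝ f) := hf.fderiv_right (m := ∞) le_rfl
    exact (h1.differentiable (by simp) y).hasFDerivAt
  have e : ∀ k l : Fin 3, pd k (pd l f) x
      = fderiv ℝ (fderiv ℝ f) x (Pi.single k 1) (Pi.single l 1) := by
    intro k l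
    have h2 : HasFDerivAt (fun y => fderiv ℝ f y (Pi.single l 1))
        ((ContinuousLinearMap.apply ℝ ℝ (Pi.single l 1)).comp (fderiv ℝ (fderiv ℝ f) x)) x :=
      (ContinuousLinearMap.apply ℝ ℝ (Pi.single l (1 : ℝ) : V)).hasFDerivAt.comp x (hd x)
    show fderiv ℝ (fun y => fderiv ℝ f y (Pi.single l 1)) x (Pi.single k 1) = _
    rw [h2.fderiv]
    rfl
  rw [e i j, e j i]
  have h2 : ContDiff ℝ 2 f := hf.of_le (by norm_cast)
  have hs : IsSymmSndFDerivAt ℝ f x := h2.contDiffAt.isSymmSndFDerivAt (by simp)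
  exact hs _ _

/-- compact support of the quotient -/
lemma q_cs {F q : V → ℝ} (hF : HasCompactSupport F) (hq : ContDiff ℝ ∞ q)
    (h : ∀ x, pd 0 F x = x 0 * q x) : HasCompactSupport q := by
  refine HasCompactSupport.intro hF.isCompact fun x hx => ?_
  have hU : ∀ᶠ y in 𝓝 x, pd 0 F y = 0 := by
    have h1 : F =ᶠ[𝓝 x] 0 := notMem_tsupport_iff_eventuallyEq.1 hx
    have h2 := h1.fderiv (𝕜 := ℝ)
    filter_upwards [h2] with y hy
    show fderiv ℝ F y (Pi.single 0 1) = 0
    rw [hy]
    simp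
  have h3 : Tendsto (fun t : ℝ => x + t • (Pi.single 0 1 : V)) (𝓝[≠] 0) (𝓝 x) := by
    have hc : Continuous fun t : ℝ => x + t • (Pi.single 0 1 : V) := by fun_prop
    have := hc.tendsto 0
    simp only [zero_smul, add_zero] at this
    exact this.mono_left nhdsWithin_le_nhds
  have h4 : ∀ᶠ t : ℝ in 𝓝[≠] 0, q (x + t • (Pi.single 0 1 : V)) = 0 := by
    have h5 : ∀ᶠ t : ℝ in 𝓝[≠] 0, x 0 + t ≠ 0 := by
      rcases eq_or_ne (x 0) 0 with h0 | h0
      · filter_upwards [self_mem_nhdsWithin] with t ht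
        rw [h0, zero_add]
        exact ht
      · have hc : Continuous fun t : ℝ => x 0 + t := by fun_prop
        have := hc.tendsto 0
        simp only [add_zero] at this
        exact (this.mono_left nhdsWithin_le_nhds).eventually_ne h0
    filter_upwards [h3.eventually hU, h5] with t ht1 ht2
    rw [h] at ht1
    have e : (x + t • (Pi.single 0 1 : V)) 0 = x 0 + t := by simp
    rw [e] at ht1
    exact (mul_eq_zero.1 ht1).resolve_left ht2
  have h6 : Tendsto (fun t : ℝ => q (x + t • (Pi.single 0 1 : V))) (𝓝[≠] 0) (𝓝 (q x)) :=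
    (hq.continuous.tendsto x).comp h3
  have h7 : Tendsto (fun t : ℝ => q (x + t • (Pi.single 0 1 : V))) (𝓝[≠] 0) (𝓝 0) :=
    tendsto_const_nhds.congr' (by filter_upwards [h4] with t ht; exact ht.symm)
  exact tendsto_nhds_unique h6 h7

section alg
variable {F q : V → ℝ}

/-- the data: an axisymmetric function and its quotient -/
structure AQ (F q : V → ℝ) : Prop where
  cF : SC F
  cq : SC q
  d0 : ∀ x, pd 0 F x = x 0 * q x
  d1 : ∀ x, pd 1 F x = x 1 * q x
  ax : ∀ x, x 0 * pd 1 q x = x 1 * pd 0 q x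

lemma AQ.RF (h : AQ F q) (x : V) : RR F x = sg x * q x := by
  unfold RR sg
  rw [h.d0, h.d1]
  ring

lemma AQ.dd (h : AQ F q) (i : Fin 3) (x : V) :
    pd i (pd 0 F) x = x 0 * pd i q x + (if (0 : Fin 3) = i then 1 else 0) * q x ∧
    pd i (pd 1 F) x = x 1 * pd i q x + (if (1 : Fin 3) = i then 1 else 0) * q x := by
  have e0 : pd 0 F = fun x => x 0 * q x := funext h.d0
  have e1 : pd 1 F = fun x => x 1 * q x := funext h.d1
  rw [e0, e1, pd_mulf (sm_crd 0) h.cq.sm, pd_mulf (sm_crd 1) h.cq.sm, pd_crd, pd_crd]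
  exact ⟨rfl, rfl⟩

lemma AQ.dg (h : AQ F q) (x : V) :
    pd 0 (pd 2 F) x = x 0 * pd 2 q x ∧ pd 1 (pd 2 F) x = x 1 * pd 2 q x := by
  rw [pd_comm2 h.cF.sm 0 2, pd_comm2 h.cF.sm 1 2, (h.dd 2 x).1, (h.dd 2 x).2]
  simp

lemma AQ.Rg (h : AQ F q) (x : V) : RR (pd 2 F) x = sg x * pd 2 q x := by
  unfold RR sg
  rw [(h.dg x).1, (h.dg x).2]
  ring

lemma AQ.hs (h : AQ F q) (x : V) : hs2 F x = 2 * q x ^ 2 + 2 * q x * RR q x + RR q x ^ 2
    + 2 * sg x * pd 2 q x ^ 2 + pd 2 (pd 2 F) x ^ 2 := by
  unfold hs2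
  simp only [Fin.sum_univ_three]
  rw [(h.dd 0 x).1, (h.dd 0 x).2, (h.dd 1 x).1, (h.dd 1 x).2, (h.dd 2 x).1, (h.dd 2 x).2,
    (h.dg x).1, (h.dg x).2]
  simp only [Fin.reduceEq, if_true, if_false]
  unfold RR sg
  have := h.ax x
  linear_combination (x 0 * pd 1 q x - x 1 * pd 0 q x) * this

lemma AQ.LL (h : AQ F q) {x : V} (hx : sg x ≠ 0) :
    LL F x = 4 * q x + RR q x + pd 2 (pd 2 F) x := by
  unfold Pool.Agent.Q67.AXI.LL lap
  rw [h.RF, Fin.sum_univ_three, (h.dd 0 x).1, (h.dd 1 x).2]
  simp only [if_true]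
  unfold RR
  field_simp
  ring

lemma AQ.gr (h : AQ F q) (x : V) : gr2 F x = sg x * q x ^ 2 + pd 2 F x ^ 2 := by
  unfold gr2 sg
  rw [Fin.sum_univ_three, h.d0, h.d1]
  ring

end alg

/-- AXW-2. -/
theorem ellW (hA : StmAxF) : StmEllW := by
  intro γ hγ hγ1 F hF hcs hax
  obtain ⟨_, _, _, q, hq1, hq2, hq3⟩ := hA F hF hax
  have hqx := (hA q hq1 hq2).1
  have hqc : HasCompactSupport q := q_cs hcs hq1 fun x => (hq3 x).1
  have A : AQ F q := ⟨⟨hF, hcs⟩, ⟨hq1, hqc⟩, fun x => (hq3 x).1, fun x => (hq3 x).2.1, hqx⟩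
  have sF := A.cF
  have sq := A.cq
  have sg2 := sF.pd 2
  have sp := sq.pd 2
  have hb1 : -1 < γ := by linarith
  have hb2 : -1 < γ - 1 := by linarith
  -- reduction of the three weights
  have w0 : ∀ (f : V → ℝ) (g : V → ℝ), (∀ x, sg x ≠ 0 → f x = g x) →
      (fun x => wt γ x * f x) = fun x => sg x ^ γ * g x := by
    intro f g hfg
    funext x
    by_cases hx : sg x = 0
    · simp only [wt]
      rw [hx, Real.zero_rpow hγ.ne', zero_mul, zero_mul]
    · simp only [wt]
      rw [hfg x hx]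
  have w1 : ∀ (f : V → ℝ), (fun x => wt γ x * (f x / sg x)) = fun x => sg x ^ (γ - 1) * f x := by
    intro f
    funext x
    rcases eq_or_lt_of_le (sg_nn x) with hx | hx
    · simp only [wt]
      rw [← hx, Real.zero_rpow hγ.ne', Real.zero_rpow (by linarith), zero_mul, zero_mul]
    · simp only [wt]
      rw [Real.rpow_sub_one hx.ne']
      field_simp
  -- smooth functions
  have s1 : SC (fun x => q x * q x) := sq.mul sq
  have s2 : SC (fun x => pd 2 F x * pd 2 F x) := sg2.mul sg2
  have s3 : SC (fun x => pd 2 q x * pd 2 F x) := sp.mul sg2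
  have s4 : SC (fun x => F x * q x) := sF.mul sq
  have s5 : SC (fun x => F x * F x) := sF.mul sF
  have s6 : SC (fun x => F x * pd 2 F x) := sF.mul sg2
  have s7 : SC (fun x => (8 * q x + 2 * RR q x) * pd 2 F x) :=
    ((sq.cm 8).add (sq.RR.cm 2)).mul sg2
  have s8 : SC (gr2 F) := by
    have e : gr2 F = fun x => sg x * (q x * q x) + pd 2 F x * pd 2 F x := by
      funext x
      rw [A.gr]
      ring
    rw [e]
    exact (s1.ml sg_sm).add s2
  have s9 : SC (hs2 F) := by
    have e : hs2 F = fun x => ((2 * (q x * q x) + 2 * (q x * RR q x)) + RR q x * RR q x)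
        + (2 * (sg x * (pd 2 q x * pd 2 q x)) + pd 2 (pd 2 F) x * pd 2 (pd 2 F) x) := by
      funext x
      rw [A.hs]
      ring
    rw [e]
    exact (((s1.cm 2).add ((sq.mul sq.RR).cm 2)).add (sq.RR.mul sq.RR)).add
      ((((sp.mul sp).ml sg_sm).cm 2).add ((sg2.pd 2).mul (sg2.pd 2)))
  -- product rules
  have r1 : ∀ {f g : V → ℝ}, SC f → SC g → ∀ x, RR (fun y => f y * g y) x
      = f x * RR g x + RR f x * g x := by
    intro f g hf hg x
    unfold RR
    rw [pd_mulf hf.sm hg.sm, pd_mulf hf.sm hg.sm]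
    ring
  have r2 : ∀ x, pd 2 (fun y => (8 * q y + 2 * RR q y) * pd 2 F y) x
      = (8 * q x + 2 * RR q x) * pd 2 (pd 2 F) x
        + (8 * pd 2 q x + 2 * RR (pd 2 q) x) * pd 2 F x := by
    intro x
    rw [pd_mulf ((sq.cm 8).add (sq.RR.cm 2)).sm sg2.sm]
    have e1 : pd 2 (fun y => 8 * q y + 2 * RR q y) x = 8 * pd 2 q x + 2 * RR (pd 2 q) x := by
      have e2 : (fun y => 8 * q y + 2 * RR q y)
          = fun y => 8 * q y + (2 * (y 0 * pd 0 q y) + 2 * (y 1 * pd 1 q y)) := by
        funext y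
        unfold RR
        ring
      rw [e2]
      have c1 : ContDiff ℝ ∞ (fun y : V => y 0 * pd 0 q y) := (sm_crd 0).mul (sq.pd 0).sm
      have c2 : ContDiff ℝ ∞ (fun y : V => y 1 * pd 1 q y) := (sm_crd 1).mul (sq.pd 1).sm
      have d1 : HasFDerivAt (fun y => 8 * q y + (2 * (y 0 * pd 0 q y) + 2 * (y 1 * pd 1 q y)))
          ((8 : ℝ) • fderiv ℝ q x + ((2 : ℝ) • fderiv ℝ (fun y : V => y 0 * pd 0 q y) x
            + (2 : ℝ) • fderiv ℝ (fun y : V => y 1 * pd 1 q y) x)) x :=
        ((sq.sm.differentiable (by simp) x).hasFDerivAt.const_mul 8).add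
          (((c1.differentiable (by simp) x).hasFDerivAt.const_mul 2).add
            ((c2.differentiable (by simp) x).hasFDerivAt.const_mul 2))
      have d2 : pd 2 (fun y => 8 * q y + (2 * (y 0 * pd 0 q y) + 2 * (y 1 * pd 1 q y))) x
          = 8 * pd 2 q x + (2 * pd 2 (fun y : V => y 0 * pd 0 q y) x
            + 2 * pd 2 (fun y : V => y 1 * pd 1 q y) x) := by
        show fderiv ℝ _ x _ = _
        rw [d1.fderiv]
        rfl
      rw [d2, pd_mulf (sm_crd 0) (sq.pd 0).sm, pd_mulf (sm_crd 1) (sq.pd 1).sm, pd_crd, pd_crd,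
        pd_comm2 sq.sm 2 0, pd_comm2 sq.sm 2 1]
      unfold RR
      simp only [Fin.reduceEq, if_false]
      ring
    show (8 * q x + 2 * RR q x) * pd 2 (pd 2 F) x
      + pd 2 (fun y => 8 * q y + 2 * RR q y) x * pd 2 F x = _
    rw [e1]
  have r3 : ∀ x, pd 2 (fun y => F y * pd 2 F y) x
      = F x * pd 2 (pd 2 F) x + pd 2 F x * pd 2 F x := by
    intro x
    rw [pd_mulf sF.sm sg2.sm]
  -- the basic values
  have j1 : J γ (fun x => pd 2 q x * pd 2 F x)
      = -γ * J (γ - 1) (fun x => pd 2 F x * pd 2 F x) := by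
    rw [← J_sg hγ]
    have e : (fun x => sg x * (pd 2 q x * pd 2 F x))
        = fun x => (1 / 2) * RR (fun y => pd 2 F y * pd 2 F y) x := by
      funext x
      rw [r1 sg2 sg2, A.Rg]
      ring
    rw [e, J_cm, J_RR hb2 s2]
    ring
  have j2 : J γ (fun x => F x * q x) = -γ * J (γ - 1) (fun x => F x * F x) := by
    rw [← J_sg hγ]
    have e : (fun x => sg x * (F x * q x))
        = fun x => (1 / 2) * RR (fun y => F y * F y) x := by
      funext x
      rw [r1 sF sF, A.RF]
      ring
    rw [e, J_cm, J_RR hb2 s5]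
    ring
  have k1 := J_RR hb1 s1
  have k2 := J_RR hb1 s3
  have k3 := J_RR hb1 s4
  have k4 := J_pd2 hb1 s7
  have k5 := J_pd2 hb1 s6
  -- the three integrals
  have i1 : (fun x => wt γ x * (gr2 F x / sg x))
      = fun x => sg x ^ γ * (q x * q x) + sg x ^ (γ - 1) * (pd 2 F x * pd 2 F x) := by
    rw [w1]
    funext x
    rw [A.gr]
    rcases eq_or_lt_of_le (sg_nn x) with hx | hx
    · rw [← hx, Real.zero_rpow hγ.ne', Real.zero_rpow (by linarith)]
      ring
    · rw [Real.rpow_sub_one hx.ne']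
      field_simp
  have i1i : Integrable (fun x => wt γ x * (gr2 F x / sg x)) := by
    rw [i1]
    exact (s1.int hb1).add (s2.int hb2)
  have i1v : ∫ x, wt γ x * (gr2 F x / sg x) = J γ (fun x => q x * q x)
      + J (γ - 1) (fun x => pd 2 F x * pd 2 F x) := by
    rw [i1, integral_add (s1.int hb1) (s2.int hb2)]
    rfl
  have i2v : ∫ x, wt γ x * LL F x ^ 2 = J γ (hs2 F) + 14 * J γ (fun x => q x * q x)
      + 3 * J γ (RR (fun x => q x * q x))
      + J γ (pd 2 (fun x => (8 * q x + 2 * RR q x) * pd 2 F x))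
      + -8 * J γ (fun x => pd 2 q x * pd 2 F x)
      + -2 * J γ (RR (fun x => pd 2 q x * pd 2 F x)) := by
    have e := w0 (fun x => LL F x ^ 2) (fun x => ((((hs2 F x + 14 * (q x * q x))
      + 3 * RR (fun x => q x * q x) x)
      + pd 2 (fun x => (8 * q x + 2 * RR q x) * pd 2 F x) x)
      + -8 * (pd 2 q x * pd 2 F x)) + -2 * RR (fun x => pd 2 q x * pd 2 F x) x) (by
        intro x hx
        show LL F x ^ 2 = _
        rw [A.LL hx, A.hs, r1 sq sq, r2, r1 sp sg2, A.Rg]
        ring)
    rw [e]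
    have t1 := s9.add (s1.cm 14)
    have t2 := t1.add (s1.RR.cm 3)
    have t3 := t2.add (s7.pd 2)
    have t4 := t3.add (s3.cm (-8))
    have := J_add hb1 t4 (s3.RR.cm (-2))
    unfold J at this ⊢
    rw [this]
    have := J_add hb1 t3 (s3.cm (-8))
    unfold J at this
    rw [this]
    have := J_add hb1 t2 (s7.pd 2)
    unfold J at this
    rw [this]
    have := J_add hb1 t1 (s1.RR.cm 3)
    unfold J at this
    rw [this]
    have := J_add hb1 s9 (s1.cm 14)
    unfold J at this
    rw [this]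
    have c := fun (c : ℝ) (f : V → ℝ) => J_cm γ c f
    unfold J at c
    rw [c, c, c, c]
  have i3v : -∫ x, wt γ x * (F x * LL F x) = J γ (gr2 F) + -4 * J γ (fun x => F x * q x)
      + -1 * J γ (RR (fun x => F x * q x)) + -1 * J γ (pd 2 (fun x => F x * pd 2 F x)) := by
    have e := w0 (fun x => F x * LL F x) (fun x => -1 * (((gr2 F x + -4 * (F x * q x))
      + -1 * RR (fun x => F x * q x) x) + -1 * pd 2 (fun x => F x * pd 2 F x) x)) (by
        intro x hx
        show F x * LL F x = _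
        rw [A.LL hx, A.gr, r1 sF sq, r3, A.RF]
        ring)
    rw [e]
    have t1 := s8.add (s4.cm (-4))
    have t2 := t1.add (s4.RR.cm (-1))
    have c := fun (c : ℝ) (f : V → ℝ) => J_cm γ c f
    have a1 := J_add hb1 t2 ((s6.pd 2).cm (-1))
    have a2 := J_add hb1 t1 (s4.RR.cm (-1))
    have a3 := J_add hb1 s8 (s4.cm (-4))
    have a4 := c (-1) (fun x => ((gr2 F x + -4 * (F x * q x))
      + -1 * RR (fun x => F x * q x) x) + -1 * pd 2 (fun x => F x * pd 2 F x) x)
    unfold J at a1 a2 a3 a4 c ⊢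
    rw [a4, a1, a2, a3, c, c, c]
    ring
  have e8 : GW γ F = J γ (gr2 F) := rfl
  have e9 : (∫ x, wt γ x * hs2 F x) = J γ (hs2 F) := rfl
  have e10 : PW γ F = J (γ - 1) (fun x => F x * F x) := by
    unfold PW
    rw [w1]
    unfold J
    congr 1
    funext x
    ring
  have n1 : 0 ≤ J γ (fun x => q x * q x) :=
    integral_nonneg fun x => mul_nonneg (Real.rpow_nonneg (sg_nn x) _) (mul_self_nonneg _)
  refine ⟨i1i, ?_, ?_⟩
  · rw [i2v, i1v, e9, k1, k2, k4, j1]
    have h1 : 0 ≤ (8 - 6 * γ - 4 * γ * (1 - γ)) * J γ (fun x => q x * q x) := by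
      refine mul_nonneg ?_ n1
      nlinarith
    nlinarith
  · rw [i3v, k3, k5, e8, e10, j2]
    ring

end Pool.Agent.Q98.AXI
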