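import Pool.Agent.Q67.AXI.Defs2

/-! Project AXW of helper67, job AXW-3: the weighted pointwise bound. -/

set_option autoImplicit false

open MeasureTheory Set Metric Filter Topology
open scoped ContDiff
open H459R3.NS Pool.Agent.W268.NS Pool.Agent.Q67.VD

namespace Pool.Agent.Q98.AXI

open Pool.Agent.Q85.CC Pool.Agent.Q85.CL Pool.Agent.TH305.AX Pool.Agent.Q67.AXI

lemma abs_rpow_int {r : ℝ} (hr : -1 < r) (R : ℝ) :
    IntervalIntegrable (fun t : ℝ => |t| ^ r) volume (-R) R := by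
  have h0 : ∀ x : ℝ, 0 < x → IntervalIntegrable (fun t : ℝ => |t| ^ r) volume 0 x := by
    intro x hx
    refine (intervalIntegral.intervalIntegrable_rpow' hr (a := 0) (b := x)).congr_uIoo ?_
    intro t ht
    rw [uIoo_of_le hx.le] at ht
    show t ^ r = |t| ^ r
    rw [abs_of_pos ht.1]
  have h1 : ∀ x : ℝ, (fun t : ℝ => |t| ^ r) x = (fun t : ℝ => |t| ^ r) (-x) := by
    intro x
    simp only [abs_neg]
  rcases le_total 0 R with hR | hR
  · rcases eq_or_lt_of_le hR with h | h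
    · rw [← h]; simp
    · have h2 := h0 R h
      have h3 : IntervalIntegrable (fun t : ℝ => |t| ^ r) volume (-R) 0 := by
        have := (IntervalIntegrable.iff_comp_neg (f := fun t : ℝ => |t| ^ r) (a := 0) (b := R)
          (by finiteness)).1 h2
        simp only [abs_neg, neg_zero] at this
        exact this.symm
      exact h3.trans h2
  · rcases eq_or_lt_of_le hR with h | h
    · rw [h]; simp
    · have h2 := h0 (-R) (by linarith)
      have h3 : IntervalIntegrable (fun t : ℝ => |t| ^ r) volume R 0 := by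
        have := (IntervalIntegrable.iff_comp_neg (f := fun t : ℝ => |t| ^ r) (a := 0) (b := -R)
          (by finiteness)).1 h2
        simp only [abs_neg, neg_zero, neg_neg] at this
        exact this.symm
      exact (h3.trans h2).symm

lemma sg_nn (x : V) : 0 ≤ sg x := by
  unfold sg
  positivity

lemma sg_cont : Continuous sg := by
  unfold sg
  fun_prop

lemma wt_nn (γ : ℝ) (x : V) : 0 ≤ wt γ x := Real.rpow_nonneg (sg_nn x) γ

lemma wt_cont {γ : ℝ} (hγ : 0 < γ) : Continuous (wt γ) := by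
  unfold wt
  exact sg_cont.rpow_const fun x => Or.inr hγ.le

lemma sm_pd {f : V → ℝ} (hf : ContDiff ℝ ∞ f) (j : Fin 3) : ContDiff ℝ ∞ (pd j f) := by
  have h1 : ContDiff ℝ ∞ (fderiv ℝ f) := hf.fderiv_right (m := ∞) le_rfl
  exact h1.clm_apply contDiff_const

lemma cs_pd {f : V → ℝ} (hf : HasCompactSupport f) (j : Fin 3) : HasCompactSupport (pd j f) :=
  hf.fderiv_apply (𝕜 := ℝ) _

lemma fderiv_sum3 (F : V → ℝ) (y w : V) : fderiv ℝ F y w = ∑ j, w j * pd j F y := by
  have h : w = ∑ j, w j • (Pi.single j 1 : V) := by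
    funext i
    simp [Finset.sum_apply, Pi.single_apply]
  conv_lhs => rw [h]
  rw [map_sum]
  refine Finset.sum_congr rfl fun j _ => ?_
  rw [map_smul, smul_eq_mul]
  rfl

lemma line_deriv {F : V → ℝ} (hF : ContDiff ℝ ∞ F) (x w : V) (r : ℝ) :
    HasDerivAt (fun r : ℝ => F (x + r • w)) (∑ j, w j * pd j F (x + r • w)) r := by
  have h1 : HasFDerivAt F (fderiv ℝ F (x + r • w)) (x + r • w) :=
    (hF.differentiable (by simp) _).hasFDerivAt
  have h2 : HasDerivAt (fun r : ℝ => x + r • w) w r := by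
    have := ((hasDerivAt_id r).smul_const w).const_add x
    simpa using this
  have h3 := h1.comp_hasDerivAt r h2
  rw [fderiv_sum3] at h3
  exact h3

/-- second derivative along a line -/
noncomputable def D2 (F : V → ℝ) (x w : V) : ℝ := ∑ i, ∑ j, w i * w j * pd i (pd j F) x

lemma D2_sq (F : V → ℝ) (x w : V) (hw : ∀ i, |w i| ≤ 2) : D2 F x w ^ 2 ≤ 144 * hs2 F x := by
  have h1 : ∀ i, w i ^ 2 ≤ 4 := by
    intro i
    have := hw i
    nlinarith [abs_nonneg (w i), sq_abs (w i)]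
  have h2 : D2 F x w = ∑ p : Fin 3 × Fin 3, (w p.1 * w p.2) * pd p.1 (pd p.2 F) x := by
    unfold D2
    rw [Fintype.sum_prod_type]
  have h3 : hs2 F x = ∑ p : Fin 3 × Fin 3, pd p.1 (pd p.2 F) x ^ 2 := by
    unfold hs2
    rw [Fintype.sum_prod_type]
  rw [h2, h3]
  refine (Finset.sum_mul_sq_le_sq_mul_sq _ _ _).trans ?_
  refine mul_le_mul_of_nonneg_right ?_ (Finset.sum_nonneg fun _ _ => sq_nonneg _)
  calc ∑ p : Fin 3 × Fin 3, (w p.1 * w p.2) ^ 2 ≤ ∑ p : Fin 3 × Fin 3, (16 : ℝ) := by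
        refine Finset.sum_le_sum fun p _ => ?_
        rw [mul_pow]
        nlinarith [h1 p.1, h1 p.2, sq_nonneg (w p.1), sq_nonneg (w p.2)]
    _ = 144 := by simp; norm_num

lemma taylor {F : V → ℝ} (hF : ContDiff ℝ ∞ F) {a x w : V} (hs : ∀ y, F y ≠ 0 → ‖y - a‖ ≤ 1)
    (hx : ‖x - a‖ ≤ 1) (hw : 1 ≤ w 0) : F x = ∫ r in (0 : ℝ)..3, r * D2 F (x + r • w) w := by
  set φ : ℝ → ℝ := fun r => F (x + r • w) with hφ
  set φ1 : ℝ → ℝ := fun r => ∑ j, w j * pd j F (x + r • w) with hφ1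
  have e1 : ∀ r, HasDerivAt φ (φ1 r) r := fun r => line_deriv hF x w r
  have e2 : ∀ r, HasDerivAt φ1 (D2 F (x + r • w) w) r := by
    intro r
    have h1 : HasDerivAt φ1 (∑ j, w j * ∑ i, w i * pd i (pd j F) (x + r • w)) r := by
      refine HasDerivAt.fun_sum fun j _ => ?_
      exact (line_deriv (sm_pd hF j) x w r).const_mul (w j)
    refine h1.congr_deriv ?_
    unfold D2
    rw [Finset.sum_comm]
    refine Finset.sum_congr rfl fun j _ => ?_
    rw [Finset.mul_sum]
    refine Finset.sum_congr rfl fun i _ => ?_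
    ring
  have e3 : ∀ r, HasDerivAt (fun r => r * φ1 r - φ r) (r * D2 F (x + r • w) w) r := by
    intro r
    refine (((hasDerivAt_id r).fun_mul (e2 r)).fun_sub (e1 r)).congr_deriv ?_
    simp only [id]
    ring
  have c1 : Continuous fun r : ℝ => r * D2 F (x + r • w) w := by
    unfold D2
    have : ∀ i j, Continuous fun r : ℝ => pd i (pd j F) (x + r • w) := by
      intro i j
      exact (sm_pd (sm_pd hF j) i).continuous.comp (by fun_prop)
    fun_prop
  rw [intervalIntegral.integral_eq_sub_of_hasDerivAt (fun r _ => e3 r)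
    (c1.intervalIntegrable _ _)]
  have hz : ∀ r : ℝ, 2 < r → φ r = 0 := by
    intro r hr
    by_contra hc
    have h1 := hs _ hc
    have h2 : |(x + r • w - a) 0| ≤ 1 := (norm_le_pi_norm _ 0).trans h1
    have h3 : |(x - a) 0| ≤ 1 := (norm_le_pi_norm _ 0).trans hx
    simp only [Pi.sub_apply, Pi.add_apply, Pi.smul_apply, smul_eq_mul] at h2 h3
    rw [abs_le] at h2 h3
    nlinarith [h2.1, h2.2, h3.1, h3.2]
  have z1 : φ 3 = 0 := hz 3 (by norm_num)
  have z2 : φ1 3 = 0 := by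
    have h1 : φ =ᶠ[𝓝 3] fun _ => (0 : ℝ) := by
      filter_upwards [lt_mem_nhds (show (2 : ℝ) < 3 by norm_num)] with r hr
      exact hz r hr
    have h2 := (e1 3).deriv
    rw [h1.deriv_eq] at h2
    simpa using h2.symm
  rw [z1, z2]
  simp [φ]

lemma hs2_nn (F : V → ℝ) (x : V) : 0 ≤ hs2 F x :=
  Finset.sum_nonneg fun _ _ => Finset.sum_nonneg fun _ _ => sq_nonneg _

lemma hs2_cont {F : V → ℝ} (hF : ContDiff ℝ ∞ F) : Continuous (hs2 F) := by
  unfold hs2
  have : ∀ i j, Continuous (pd i (pd j F)) := fun i j => (sm_pd (sm_pd hF j) i).continuous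
  fun_prop

lemma D2_cont {F : V → ℝ} (hF : ContDiff ℝ ∞ F) (x w : V) :
    Continuous fun r : ℝ => D2 F (x + r • w) w := by
  unfold D2
  have : ∀ i j, Continuous fun r : ℝ => pd i (pd j F) (x + r • w) := by
    intro i j
    exact (sm_pd (sm_pd hF j) i).continuous.comp (by fun_prop)
  fun_prop

lemma amgm {l P N d c : ℝ} (hl : 0 < l) (hP : 0 < P) (hN : 0 < N) (h : c ^ 2 = P * N) :
    c * |d| ≤ l * (P * d ^ 2) + l⁻¹ * N := by
  have h1 : 0 ≤ (l * P * |d| - c) ^ 2 := sq_nonneg _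
  have h2 : l * P * (c * |d|) ≤ (l * P) ^ 2 * d ^ 2 + P * N := by
    have : |d| ^ 2 = d ^ 2 := sq_abs d
    nlinarith [sq_nonneg (l * P * |d|), sq_nonneg c]
  have hlP : 0 < l * P := mul_pos hl hP
  have h3 : l * P * (l * (P * d ^ 2) + l⁻¹ * N) = (l * P) ^ 2 * d ^ 2 + P * N := by
    field_simp
  rw [← h3] at h2
  exact le_of_mul_le_mul_left h2 hlP

lemma point {γ : ℝ} (hγ : 0 < γ) (F : V → ℝ) {x w : V} (hw : ∀ i, |w i| ≤ 2) {l : ℝ}
    (hl : 0 < l) {r : ℝ} (hr : 0 < r) (hx : x 0 + w 0 * r ≠ 0) :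
    |r * D2 F (x + r • w) w| ≤ 144 * l * (r ^ (9 / 4 : ℝ) * (wt γ (x + r • w)
      * hs2 F (x + r • w))) + l⁻¹ * (r ^ (-(1 / 2) : ℝ) + |x 0 + w 0 * r| ^ (-(4 * γ))) := by
  set y := x + r • w with hy
  have hy0 : y 0 = x 0 + w 0 * r := by
    simp only [hy, Pi.add_apply, Pi.smul_apply, smul_eq_mul]
    ring
  have hsg : (x 0 + w 0 * r) ^ 2 ≤ sg y := by
    unfold sg
    rw [hy0]
    nlinarith [sq_nonneg (y 1)]
  have hpos : 0 < sg y := lt_of_lt_of_le (by positivity) hsg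
  have hwt : 0 < wt γ y := Real.rpow_pos_of_pos hpos γ
  have hP : 0 < r ^ (9 / 4 : ℝ) * wt γ y := mul_pos (Real.rpow_pos_of_pos hr _) hwt
  have hN : 0 < r ^ (-(1 / 4) : ℝ) * (wt γ y)⁻¹ :=
    mul_pos (Real.rpow_pos_of_pos hr _) (inv_pos.2 hwt)
  have hc : r ^ 2 = (r ^ (9 / 4 : ℝ) * wt γ y) * (r ^ (-(1 / 4) : ℝ) * (wt γ y)⁻¹) := by
    have : r ^ (9 / 4 : ℝ) * r ^ (-(1 / 4) : ℝ) = r ^ 2 := by
      rw [← Real.rpow_add hr]
      norm_num
    calc r ^ 2 = (r ^ (9 / 4 : ℝ) * r ^ (-(1 / 4) : ℝ)) * (wt γ y * (wt γ y)⁻¹) := by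
          rw [this, mul_inv_cancel₀ hwt.ne', mul_one]
      _ = _ := by ring
  have h1 := amgm (d := D2 F y w) hl hP hN hc
  rw [abs_mul, abs_of_pos hr]
  refine h1.trans ?_
  have h2 : l * (r ^ (9 / 4 : ℝ) * wt γ y * D2 F y w ^ 2)
      ≤ 144 * l * (r ^ (9 / 4 : ℝ) * (wt γ y * hs2 F y)) := by
    have := D2_sq F y w hw
    calc l * (r ^ (9 / 4 : ℝ) * wt γ y * D2 F y w ^ 2)
        ≤ l * (r ^ (9 / 4 : ℝ) * wt γ y * (144 * hs2 F y)) := by gcongr
      _ = _ := by ring
  have h3 : r ^ (-(1 / 4) : ℝ) * (wt γ y)⁻¹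
      ≤ r ^ (-(1 / 2) : ℝ) + |x 0 + w 0 * r| ^ (-(4 * γ)) := by
    have e1 : r ^ (-(1 / 2) : ℝ) = (r ^ (-(1 / 4) : ℝ)) ^ 2 := by
      rw [← Real.rpow_natCast, ← Real.rpow_mul hr.le]
      norm_num
    have e2 : (wt γ y)⁻¹ ^ 2 ≤ |x 0 + w 0 * r| ^ (-(4 * γ)) := by
      have e3 : (wt γ y)⁻¹ ^ 2 = (sg y) ^ (-(2 * γ)) := by
        unfold wt
        rw [← Real.rpow_neg hpos.le, ← Real.rpow_natCast, ← Real.rpow_mul hpos.le]
        congr 1
        push_cast
        ring
      have e4 : |x 0 + w 0 * r| ^ (-(4 * γ)) = ((x 0 + w 0 * r) ^ 2) ^ (-(2 * γ)) := by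
        rw [← sq_abs (x 0 + w 0 * r), ← Real.rpow_natCast, ← Real.rpow_mul (abs_nonneg _)]
        congr 1
        push_cast
        ring
      rw [e3, e4]
      exact Real.rpow_le_rpow_of_nonpos (by positivity) hsg (by linarith)
    rw [e1]
    have h0 : 0 < r ^ (-(1 / 4) : ℝ) := Real.rpow_pos_of_pos hr _
    nlinarith [sq_nonneg (r ^ (-(1 / 4) : ℝ) - (wt γ y)⁻¹), inv_pos.2 hwt]
  have h4 : l⁻¹ * (r ^ (-(1 / 4) : ℝ) * (wt γ y)⁻¹)
      ≤ l⁻¹ * (r ^ (-(1 / 2) : ℝ) + |x 0 + w 0 * r| ^ (-(4 * γ))) :=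
    mul_le_mul_of_nonneg_left h3 (inv_pos.2 hl).le
  linarith

/-- first constant -/
noncomputable def K1 (γ : ℝ) : ℝ :=
  (∫ r in (0 : ℝ)..3, r ^ (-(1 / 2) : ℝ)) + ∫ u in (-7 : ℝ)..7, |u| ^ (-(4 * γ))

lemma line_bd {γ : ℝ} (hγ : 0 < γ) (hγ1 : γ ≤ 1 / 10) {F : V → ℝ} (hF : ContDiff ℝ ∞ F)
    {a x w : V} (hs : ∀ y, F y ≠ 0 → ‖y - a‖ ≤ 1) (ha : a 0 = 0) (hx : ‖x - a‖ ≤ 1)
    (hw : ∀ i, 1 ≤ w i ∧ w i ≤ 2) {l : ℝ} (hl : 0 < l) :
    |F x| ≤ 144 * l * (∫ r in (0 : ℝ)..3, r ^ (9 / 4 : ℝ) * (wt γ (x + r • w)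
      * hs2 F (x + r • w))) + l⁻¹ * K1 γ := by
  have hw2 : ∀ i, |w i| ≤ 2 := fun i => by
    rw [abs_of_nonneg (by linarith [(hw i).1])]
    exact (hw i).2
  have hx0 : |x 0| ≤ 1 := by
    have := (norm_le_pi_norm (x - a) 0).trans hx
    simpa [ha] using this
  have hcl : Continuous fun r : ℝ => x + r • w := by fun_prop
  have i1 : IntervalIntegrable (fun r : ℝ => r ^ (9 / 4 : ℝ) * (wt γ (x + r • w)
      * hs2 F (x + r • w))) volume 0 3 := by
    refine Continuous.intervalIntegrable ?_ _ _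
    refine (Real.continuous_rpow_const (by norm_num)).mul (((wt_cont hγ).comp hcl).mul
      ((hs2_cont hF).comp hcl))
  have i2 : IntervalIntegrable (fun r : ℝ => r ^ (-(1 / 2) : ℝ)) volume 0 3 :=
    intervalIntegral.intervalIntegrable_rpow' (by norm_num)
  have hw0 : 0 < w 0 := by linarith [(hw 0).1]
  have i3' : IntervalIntegrable (fun u : ℝ => |u| ^ (-(4 * γ))) volume (-7) 7 :=
    abs_rpow_int (by linarith) 7
  have hsub : uIcc (x 0) (x 0 + w 0 * 3) ⊆ uIcc (-7 : ℝ) 7 := by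
    rw [uIcc_of_le (by linarith), uIcc_of_le (by norm_num)]
    rw [abs_le] at hx0
    exact Icc_subset_Icc (by linarith) (by linarith [(hw 0).2])
  have i3'' : IntervalIntegrable (fun u : ℝ => |u| ^ (-(4 * γ))) volume (x 0) (x 0 + w 0 * 3) :=
    i3'.mono_set hsub
  have i3 : IntervalIntegrable (fun r : ℝ => |x 0 + w 0 * r| ^ (-(4 * γ))) volume 0 3 := by
    have h1 := i3''.comp_add_left (x 0) (by finiteness)
    have h2 := h1.comp_mul_left (c := w 0) (by finiteness)
    refine IntervalIntegrable.congr_uIoo (f := fun r : ℝ => |x 0 + w 0 * r| ^ (-(4 * γ))) ?_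
      (fun _ _ => rfl)
    convert h2 using 1
    · simp
    · field_simp
      ring
  have e3 : ∫ r in (0 : ℝ)..3, |x 0 + w 0 * r| ^ (-(4 * γ))
      ≤ ∫ u in (-7 : ℝ)..7, |u| ^ (-(4 * γ)) := by
    rw [intervalIntegral.integral_comp_add_mul (fun u : ℝ => |u| ^ (-(4 * γ))) hw0.ne' (x 0)]
    rw [mul_zero, add_zero, smul_eq_mul]
    have h1 : ∫ u in (x 0)..(x 0 + w 0 * 3), |u| ^ (-(4 * γ))
        ≤ ∫ u in (-7 : ℝ)..7, |u| ^ (-(4 * γ)) := by
      rw [abs_le] at hx0
      refine intervalIntegral.integral_mono_interval (by linarith) (by linarith)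
        (by linarith [(hw 0).2]) ?_ i3'
      exact Filter.Eventually.of_forall fun u => Real.rpow_nonneg (abs_nonneg u) _
    have h0 : 0 ≤ ∫ u in (x 0)..(x 0 + w 0 * 3), |u| ^ (-(4 * γ)) :=
      intervalIntegral.integral_nonneg (by linarith) fun u _ => Real.rpow_nonneg (abs_nonneg u) _
    have h2 : (w 0)⁻¹ ≤ 1 := inv_le_one_of_one_le₀ (hw 0).1
    calc (w 0)⁻¹ * ∫ u in (x 0)..(x 0 + w 0 * 3), |u| ^ (-(4 * γ))
        ≤ 1 * ∫ u in (x 0)..(x 0 + w 0 * 3), |u| ^ (-(4 * γ)) :=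
          mul_le_mul_of_nonneg_right h2 h0
      _ ≤ _ := by rw [one_mul]; exact h1
  rw [taylor hF hs hx (hw 0).1]
  have hD : IntervalIntegrable (fun r : ℝ => r * D2 F (x + r • w) w) volume 0 3 :=
    (continuous_id.mul (D2_cont hF x w)).intervalIntegrable _ _
  refine (intervalIntegral.abs_integral_le_integral_abs (by norm_num)).trans ?_
  have hmono : ∫ r in (0 : ℝ)..3, |r * D2 F (x + r • w) w|
      ≤ ∫ r in (0 : ℝ)..3, (144 * l * (r ^ (9 / 4 : ℝ) * (wt γ (x + r • w)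
      * hs2 F (x + r • w))) + l⁻¹ * (r ^ (-(1 / 2) : ℝ) + |x 0 + w 0 * r| ^ (-(4 * γ)))) := by
    refine intervalIntegral.integral_mono_ae_restrict (by norm_num) hD.abs
      ((i1.const_mul _).add ((i2.add i3).const_mul _)) ?_
    have hne : ∀ᵐ r : ℝ ∂(volume.restrict (Icc 0 3)), r ≠ 0 ∧ r ≠ -(x 0) / w 0 := by
      refine ae_restrict_of_ae ?_
      have h1 : ∀ c : ℝ, ∀ᵐ r : ℝ, r ≠ c := by
        intro c
        exact Measure.ae_ne volume c
      filter_upwards [h1 0, h1 (-(x 0) / w 0)] with r hr1 hr2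
      exact ⟨hr1, hr2⟩
    filter_upwards [hne, ae_restrict_mem measurableSet_Icc] with r hr hr2
    refine point hγ F hw2 hl (lt_of_le_of_ne hr2.1 (Ne.symm hr.1)) ?_
    intro hc
    apply hr.2
    field_simp
    linarith
  refine hmono.trans ?_
  rw [intervalIntegral.integral_add (i1.const_mul _) ((i2.add i3).const_mul _),
    intervalIntegral.integral_const_mul, intervalIntegral.integral_const_mul,
    intervalIntegral.integral_add i2 i3]
  unfold K1
  have := inv_pos.2 hl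
  gcongr

/-- the directions -/
def QQ : Set V := Icc (fun _ => 1) (fun _ => 2)

lemma vol_QQ : volume QQ = 1 := by
  unfold QQ
  rw [Real.volume_Icc_pi]
  norm_num

/-- second constant -/
noncomputable def K2 : ℝ := ∫ r in (0 : ℝ)..3, r ^ (-(3 / 4) : ℝ)

lemma avg {h : V → ℝ} (hc : Continuous h) (hcs : HasCompactSupport h) (hn : ∀ y, 0 ≤ h y)
    (x : V) :
    IntegrableOn (fun w => ∫ r in (0 : ℝ)..3, r ^ (9 / 4 : ℝ) * h (x + r • w)) QQ ∧
    ∫ w in QQ, ∫ r in (0 : ℝ)..3, r ^ (9 / 4 : ℝ) * h (x + r • w) ≤ K2 * ∫ y, h y := by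
  set f : V → ℝ → ℝ := fun w r => r ^ (9 / 4 : ℝ) * h (x + r • w) with hf
  have c1 : Continuous (Function.uncurry f) := by
    have e : Function.uncurry f = fun z : V × ℝ => z.2 ^ (9 / 4 : ℝ) * h (x + z.2 • z.1) := rfl
    rw [e]
    refine ((Real.continuous_rpow_const (by norm_num)).comp continuous_snd).mul (hc.comp ?_)
    fun_prop
  have hint : Integrable (Function.uncurry f)
      ((volume.restrict QQ).prod (volume.restrict (Ioc (0 : ℝ) 3))) := by
    rw [Measure.prod_restrict]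
    have h1 : IntegrableOn (Function.uncurry f) (QQ ×ˢ Icc (0 : ℝ) 3) (volume.prod volume) :=
      c1.continuousOn.integrableOn_compact (isCompact_Icc.prod isCompact_Icc)
    exact h1.mono_set (prod_mono_right Ioc_subset_Icc_self)
  have e1 : ∀ w, ∫ r in (0 : ℝ)..3, r ^ (9 / 4 : ℝ) * h (x + r • w)
      = ∫ r in Ioc (0 : ℝ) 3, f w r := fun w =>
    intervalIntegral.integral_of_le (by norm_num)
  simp_rw [e1]
  refine ⟨hint.integral_prod_left, ?_⟩
  rw [integral_integral_swap hint]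
  have hH : Integrable h := hc.integrable_of_hasCompactSupport hcs
  have hHn : 0 ≤ ∫ y, h y := integral_nonneg hn
  have e2 : ∀ r ∈ Ioc (0 : ℝ) 3, ∫ w in QQ, f w r ≤ r ^ (-(3 / 4) : ℝ) * ∫ y, h y := by
    intro r hr
    have h1 : Integrable (fun w : V => h (x + r • w)) := by
      have := (hH.comp_add_left x).comp_smul (R := r) hr.1.ne'
      exact this
    have h2 : ∫ w : V, h (x + r • w) = r ^ (-3 : ℝ) * ∫ y, h y := by
      have := Measure.integral_comp_smul (volume : Measure V) (fun z => h (x + z)) r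
      rw [this, integral_add_left_eq_self h x]
      simp only [Module.finrank_fintype_fun_eq_card, Fintype.card_fin, smul_eq_mul]
      rw [abs_of_pos (by have := hr.1; positivity), Real.rpow_neg hr.1.le]
      norm_num
    calc ∫ w in QQ, f w r = r ^ (9 / 4 : ℝ) * ∫ w in QQ, h (x + r • w) := by
          simp only [hf]
          rw [integral_const_mul]
      _ ≤ r ^ (9 / 4 : ℝ) * ∫ w : V, h (x + r • w) := by
          refine mul_le_mul_of_nonneg_left ?_ (Real.rpow_nonneg hr.1.le _)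
          exact setIntegral_le_integral h1 (Filter.Eventually.of_forall fun w => hn _)
      _ = r ^ (-(3 / 4) : ℝ) * ∫ y, h y := by
          rw [h2, ← mul_assoc, ← Real.rpow_add hr.1]
          norm_num
  calc ∫ r in Ioc (0 : ℝ) 3, ∫ w in QQ, f w r
      ≤ ∫ r in Ioc (0 : ℝ) 3, r ^ (-(3 / 4) : ℝ) * ∫ y, h y := by
        refine setIntegral_mono_on hint.integral_prod_right ?_ measurableSet_Ioc e2
        refine Integrable.mul_const ?_ _
        have := intervalIntegral.intervalIntegrable_rpow' (a := 0) (b := 3)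
          (r := (-(3 / 4) : ℝ)) (by norm_num)
        exact (intervalIntegrable_iff_integrableOn_Ioc_of_le (by norm_num)).1 this
    _ = K2 * ∫ y, h y := by
        rw [integral_mul_const]
        unfold K2
        rw [intervalIntegral.integral_of_le (by norm_num)]

lemma K1_pos {γ : ℝ} : 0 < K1 γ := by
  unfold K1
  have h1 : 0 < ∫ r in (0 : ℝ)..3, r ^ (-(1 / 2) : ℝ) := by
    refine intervalIntegral.intervalIntegral_pos_of_pos_on
      (intervalIntegral.intervalIntegrable_rpow' (by norm_num)) ?_ (by norm_num)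
    intro r hr
    exact Real.rpow_pos_of_pos hr.1 _
  have h2 : 0 ≤ ∫ u in (-7 : ℝ)..7, |u| ^ (-(4 * γ)) :=
    intervalIntegral.integral_nonneg (by norm_num) fun u _ => Real.rpow_nonneg (abs_nonneg u) _
  linarith

lemma K2_nn : 0 ≤ K2 := by
  unfold K2
  exact intervalIntegral.integral_nonneg (by norm_num) fun u hu => Real.rpow_nonneg hu.1 _

/-- AXW-3. -/
theorem sobW : StmSobW := by
  intro γ hγ hγ1
  refine ⟨576 * K1 γ * K2 + 1, by have := K1_pos (γ := γ); have := K2_nn; positivity, ?_⟩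
  intro F a hF ha0 _ hs x
  have hk1 := K1_pos (γ := γ)
  have hk2 := K2_nn
  have hcs2 : HasCompactSupport (fun y => wt γ y * hs2 F y) := by
    have h1 : HasCompactSupport F := by
      refine HasCompactSupport.intro (isCompact_closedBall a 1) fun y hy => ?_
      by_contra hc
      exact hy (by rw [mem_closedBall, dist_eq_norm]; exact hs y hc)
    refine HasCompactSupport.mul_left ?_
    unfold hs2
    refine HasCompactSupport.intro h1 fun y hy => ?_
    refine Finset.sum_eq_zero fun i _ => Finset.sum_eq_zero fun j _ => ?_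
    have h2 : pd i (pd j F) y = 0 := by
      by_contra hc
      have h3 : y ∈ tsupport (pd i (pd j F)) := subset_tsupport _ hc
      have h4 : tsupport (pd i (pd j F)) ⊆ tsupport (pd j F) := by
        refine closure_minimal ?_ (isClosed_tsupport _)
        intro z hz
        by_contra hc2
        apply hz
        show fderiv ℝ (pd j F) z (Pi.single i 1) = 0
        have : fderiv ℝ (pd j F) z = 0 := by
          by_contra h5
          exact hc2 (support_fderiv_subset ℝ h5)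
        rw [this]; rfl
      have h5 : tsupport (pd j F) ⊆ tsupport F := by
        refine closure_minimal ?_ (isClosed_tsupport _)
        intro z hz
        by_contra hc2
        apply hz
        show fderiv ℝ F z (Pi.single j 1) = 0
        have : fderiv ℝ F z = 0 := by
          by_contra h5
          exact hc2 (support_fderiv_subset ℝ h5)
        rw [this]; rfl
      exact hy (h5 (h4 h3))
    rw [h2]
    norm_num
  have hc2 : Continuous (fun y => wt γ y * hs2 F y) := (wt_cont hγ).mul (hs2_cont hF)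
  have hn2 : ∀ y, 0 ≤ wt γ y * hs2 F y := fun y => mul_nonneg (wt_nn γ y) (hs2_nn F y)
  have hI : 0 ≤ ∫ y, wt γ y * hs2 F y := integral_nonneg hn2
  by_cases hx0 : F x = 0
  · rw [hx0]
    have : 0 ≤ (576 * K1 γ * K2 + 1) * ∫ y, wt γ y * hs2 F y := by positivity
    simpa using this
  have hx : ‖x - a‖ ≤ 1 := hs x hx0
  obtain ⟨g1, g2⟩ := avg hc2 hcs2 hn2 x
  have key : ∀ l : ℝ, 0 < l → |F x| ≤ 144 * l * (K2 * ∫ y, wt γ y * hs2 F y) + l⁻¹ * K1 γ := by
    intro l hl
    have h1 : |F x| = ∫ w in QQ, |F x| := by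
      rw [setIntegral_const, Measure.real, vol_QQ]
      simp
    have hfin : volume QQ < ⊤ := by rw [vol_QQ]; exact ENNReal.one_lt_top
    rw [h1]
    calc ∫ w in QQ, |F x| ≤ ∫ w in QQ, (144 * l * (∫ r in (0 : ℝ)..3, r ^ (9 / 4 : ℝ) *
          (wt γ (x + r • w) * hs2 F (x + r • w))) + l⁻¹ * K1 γ) := by
          refine setIntegral_mono_on (integrableOn_const hfin.ne) ?_
            measurableSet_Icc ?_
          · exact (g1.const_mul _).add (integrableOn_const hfin.ne)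
          · intro w hw
            exact line_bd hγ hγ1 hF hs ha0 hx (fun i => ⟨hw.1 i, hw.2 i⟩) hl
      _ = 144 * l * (∫ w in QQ, ∫ r in (0 : ℝ)..3, r ^ (9 / 4 : ℝ) *
          (wt γ (x + r • w) * hs2 F (x + r • w))) + l⁻¹ * K1 γ := by
          rw [integral_add (g1.const_mul _) (integrableOn_const hfin.ne), integral_const_mul,
            setIntegral_const, Measure.real, vol_QQ]
          simp
      _ ≤ _ := by gcongr
  set I := ∫ y, wt γ y * hs2 F y with hIdef
  have hf : 0 < |F x| := abs_pos.2 hx0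
  have h1 := key (2 * K1 γ / |F x|) (by positivity)
  have h2 : (2 * K1 γ / |F x|)⁻¹ * K1 γ = |F x| / 2 := by
    field_simp
  rw [h2] at h1
  have h3 : |F x| / 2 ≤ 144 * (2 * K1 γ / |F x|) * (K2 * I) := by linarith
  have h4 : |F x| / 2 * |F x| ≤ 144 * (2 * K1 γ / |F x|) * (K2 * I) * |F x| :=
    mul_le_mul_of_nonneg_right h3 hf.le
  have h5 : 144 * (2 * K1 γ / |F x|) * (K2 * I) * |F x| = 288 * K1 γ * K2 * I := by
    field_simp
    ring
  rw [h5] at h4
  have h6 : |F x| * |F x| = F x ^ 2 := by rw [← sq, sq_abs]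
  nlinarith

end Pool.Agent.Q98.AXI
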